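import Pool.Agent.Y296.QP.Defs
import Pool.Agent.Helper34.Dg.Bl

set_option autoImplicit false

namespace Pool.Agent.Y296.QP

open Filter Topology Manifold Metric Set
open Pool.Agent.Helper34.Dg
open scoped ENNReal

variable {X : Type*} [TopologicalSpace X] [ChartedSpace ℂ X]

lemma mem_disc' {z : ℂ} : z ∈ disc ↔ ‖z‖ < 1 := by simp [disc]

/-- composition with a function holomorphic on the disc -/
lemma Hol.comp_disc {φ : X → ℂ} (hφ : Hol φ) (hlt : ∀ x, ‖φ x‖ < 1) {g : ℂ → ℂ}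
    (hg : DifferentiableOn ℂ g disc) : Hol fun x => g (φ x) := by
  intro x
  have h1 : DifferentiableAt ℂ g (φ x) :=
    (hg _ (mem_disc'.2 (hlt x))).differentiableAt (isOpen_ball.mem_nhds (mem_disc'.2 (hlt x)))
  exact h1.comp_mdifferentiableAt (hφ x)

/-- the maximum principle on the sublevel sets of a proper map -/
lemma max_principle [IsManifold 𝓘(ℂ) 1 X] [T2Space X] [ConnectedSpace X] {φ : X → ℂ} (hφ : Hol φ)
    (hprop : ∀ r : ℝ, r < 1 → IsCompact {x | ‖φ x‖ ≤ r}) (hnc : ∃ x y, φ x ≠ φ y)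
    {F : X → ℂ} (hF : Hol F) {r C : ℝ} (hr : r < 1) (hb : ∀ x, ‖φ x‖ = r → ‖F x‖ ≤ C) :
    ∀ x, ‖φ x‖ ≤ r → ‖F x‖ ≤ C := by
  intro x hx
  by_contra hlt
  push Not at hlt
  have hφc : Continuous φ := hφ.continuous
  have hFc : Continuous F := hF.continuous
  obtain ⟨x₀, hx₀, hmax⟩ := (hprop r hr).exists_isMaxOn ⟨x, hx⟩ hFc.norm.continuousOn
  have h0 : C < ‖F x₀‖ := lt_of_lt_of_le hlt (hmax hx)
  set T : Set X := {y | ‖φ y‖ ≤ r ∧ ‖F y‖ = ‖F x₀‖} with hT
  have hclosed : IsClosed T :=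
    (isClosed_le hφc.norm continuous_const).inter (isClosed_eq hFc.norm continuous_const)
  have hopen : IsOpen T := by
    rw [isOpen_iff_mem_nhds]
    rintro y ⟨hy1, hy2⟩
    have hy3 : ‖φ y‖ < r := by
      rcases lt_or_eq_of_le hy1 with h | h
      · exact h
      · have := hb y h
        linarith
    have hy4 : ∀ᶠ z in 𝓝 y, ‖φ z‖ < r := hφc.norm.continuousAt.eventually (gt_mem_nhds hy3)
    have hlm : IsLocalMax (norm ∘ F) y := by
      filter_upwards [hy4] with z hz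
      simp only [Function.comp]
      rw [hy2]
      exact hmax (show ‖φ z‖ ≤ r from hz.le)
    have h5 := Complex.norm_eventually_eq_of_mdifferentiableAt_of_isLocalMax
      (I := 𝓘(ℂ)) (Filter.Eventually.of_forall fun z => hF z) hlm
    filter_upwards [hy4, h5] with z hz1 hz2
    exact ⟨hz1.le, hz2.trans hy2⟩
  have huniv : T = univ := IsClopen.eq_univ ⟨hclosed, hopen⟩ ⟨x₀, hx₀, rfl⟩
  have hK : {x | ‖φ x‖ ≤ r} = (univ : Set X) := by
    refine eq_univ_of_univ_subset (huniv ▸ fun y hy => hy.1)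
  haveI : CompactSpace X := ⟨hK ▸ hprop r hr⟩
  obtain ⟨a, b, hab⟩ := hnc
  exact hab (MDifferentiable.apply_eq_of_compactSpace (I := 𝓘(ℂ)) hφ a b)

end Pool.Agent.Y296.QP
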