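import Pool.Agent.Helper34.Dg.Defs

/-!
# Quasi-proper maps of two-sheeted coverings of the disc: definitions

`disc`, `IsBlaschke` and `IsInner` are those of `Pool.Agent.Helper34.Dg.Defs`: the open unit disc,
Blaschke products (finite or infinite, with a unimodular constant factor) and inner functions.
-/

set_option autoImplicit false

namespace Pool.Agent.Y296.QP

open Filter Topology Manifold
open Pool.Agent.Helper34.Dg (disc IsBlaschke IsInner)
open scoped ENNReal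

/-- The functions `f : X → ℂ` which are holomorphic on the Riemann surface `X`. -/
abbrev Hol {X : Type*} [TopologicalSpace X] [ChartedSpace ℂ X] (f : X → ℂ) : Prop :=
  MDifferentiable 𝓘(ℂ) 𝓘(ℂ) f

/-- `d f` vanishes at `x`. -/
abbrev Crit {X : Type*} [TopologicalSpace X] [ChartedSpace ℂ X] (f : X → ℂ) (x : X) : Prop :=
  mfderiv 𝓘(ℂ) 𝓘(ℂ) f x = 0

/-- The order of vanishing of `f` at `x`, read in the chart at `x`. -/
noncomputable def ordAt {X : Type*} [TopologicalSpace X] [ChartedSpace ℂ X] (f : X → ℂ) (x : X) :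
    ℕ∞ :=
  analyticOrderAt (f ∘ (chartAt ℂ x).symm) (chartAt ℂ x x)

/-- A holomorphic map `θ : X → 𝔻` is quasi-proper if `sup |f| = sup |θ f|` for every holomorphic
function `f` on `X` (suprema in `[0, ∞]`). -/
structure QuasiProper {X : Type*} [TopologicalSpace X] [ChartedSpace ℂ X] (θ : X → ℂ) : Prop where
  hol : Hol θ
  lt_one : ∀ x, ‖θ x‖ < 1
  sup_eq : ∀ f : X → ℂ, Hol f → ⨆ x, ‖f x‖ₑ = ⨆ x, ‖θ x * f x‖ₑ

/-- The setting of the problem: a proper holomorphic map `φ : X → 𝔻` with exactly two zeros counted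
with multiplicity and infinitely many critical points, the sheet interchange `σ`, the Blaschke
product `B` with simple zeros exactly at the branch values, and the square root `ϑ` of `B ∘ φ`. -/
structure Setting (X : Type*) [TopologicalSpace X] [ChartedSpace ℂ X] where
  /-- the two-sheeted covering -/
  φ : X → ℂ
  φ_hol : Hol φ
  φ_lt : ∀ x, ‖φ x‖ < 1
  φ_proper : ∀ r : ℝ, r < 1 → IsCompact {x | ‖φ x‖ ≤ r}
  φ_zeros : ∃ Z : Finset X, (∀ x, x ∈ Z ↔ φ x = 0) ∧ ∑ x ∈ Z, ordAt φ x = 2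
  φ_crit : {x | Crit φ x}.Infinite
  /-- the sheet interchange -/
  σ : X → X
  σ_hol : MDifferentiable 𝓘(ℂ) 𝓘(ℂ) σ
  σ_φ : ∀ x, φ (σ x) = φ x
  σ_σ : ∀ x, σ (σ x) = x
  σ_ne : σ ≠ id
  /-- the Blaschke product of the branch values -/
  B : ℂ → ℂ
  sum_lt : Summable fun x : {x | Crit φ x} => 1 - ‖φ x‖
  B_bl : IsBlaschke B
  B_zero : ∀ z ∈ disc, (B z = 0 ↔ ∃ x, Crit φ x ∧ φ x = z)
  B_simple : ∀ z ∈ disc, B z = 0 → deriv B z ≠ 0
  /-- the square root of `B ∘ φ` -/
  ϑ : X → ℂ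
  ϑ_hol : Hol ϑ
  ϑ_sq : ∀ x, ϑ x ^ 2 = B (φ x)
  ϑ_σ : ∀ x, ϑ (σ x) = -ϑ x

/-- `bs` is the Blaschke product `b*`, whose zeros are the squares of the zeros of `b`, with
multiplicities added; it is determined up to a unimodular constant by
`b* (w ^ 2) = c b(w) b(-w)`. -/
def IsStar (b bs : ℂ → ℂ) : Prop :=
  IsBlaschke bs ∧ ∃ c : ℂ, ‖c‖ = 1 ∧ ∀ w ∈ disc, bs (w ^ 2) = c * (b w * b (-w))

/-- The family `𝓛` of the problem: (i) `b ∘ φ` with `b` a Blaschke product; (ii) `ϑ`;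
(iii) `b ∘ ((u ∘ φ) ϑ)` with `b` a Blaschke product and `u` inner such that `b* (u ^ 2 B)` is a
Blaschke product. -/
def InL {X : Type*} [TopologicalSpace X] [ChartedSpace ℂ X] (S : Setting X) (g : X → ℂ) : Prop :=
  (∃ b, IsBlaschke b ∧ ∀ x, g x = b (S.φ x)) ∨ (∀ x, g x = S.ϑ x) ∨
    ∃ b u, IsBlaschke b ∧ IsInner u ∧
      (∃ bs, IsStar b bs ∧ IsBlaschke fun z => bs (u z ^ 2 * S.B z)) ∧
      ∀ x, g x = b (u (S.φ x) * S.ϑ x)

/-- `θ` is a finite product of members of `P`, or an infinite product of members of `P` which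
converges (here convergence of the partial products at every point is enough). -/
def IsProdOf {X : Type*} (P : (X → ℂ) → Prop) (θ : X → ℂ) : Prop :=
  (∃ (n : ℕ) (g : ℕ → X → ℂ), (∀ i < n, P (g i)) ∧ ∀ x, θ x = ∏ i ∈ Finset.range n, g i x) ∨
    ∃ g : ℕ → X → ℂ, (∀ i, P (g i)) ∧
      ∀ x, Tendsto (fun n => ∏ i ∈ Finset.range n, g i x) atTop (𝓝 (θ x))

end Pool.Agent.Y296.QP
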