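import Pool.Agent.Helper34.Dg.Fros2
import Pool.Agent.Helper34.Dg.Bl

set_option autoImplicit false

open MeasureTheory Filter Topology Complex Metric Set
open scoped ComplexConjugate ENNReal

namespace Pool.Agent.Y296.QP

open Pool.Agent.Helper34.Dg

/-- the constant `1/2` -/
noncomputable def hh : ℂ := ((1 / 2 : ℝ) : ℂ)

lemma hh_norm : ‖hh‖ = 1 / 2 := by rw [hh, Complex.norm_real]; norm_num
lemma hh_lt : ‖hh‖ < 1 := by rw [hh_norm]; norm_num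
lemma hh_conj : conj hh = hh := by rw [hh, Complex.conj_ofReal]

/-- one branch -/
noncomputable def br (z t : ℂ) : ℂ := z * ((t - hh) / (1 - hh * t))

/-- the norm of the shifted function -/
noncomputable def NN (B : ℂ → ℂ) (ξ z : ℂ) : ℂ :=
  ((ξ + hh * z) ^ 2 - (hh * ξ + z) ^ 2 * B z) /
    ((1 + hh * conj ξ * z) ^ 2 - (hh + conj ξ * z) ^ 2 * B z)

lemma br_le {z t : ℂ} (ht : ‖t‖ ≤ 1) : ‖br z t‖ ≤ ‖z‖ := by
  rw [br, norm_mul]
  refine mul_le_of_le_one_right (norm_nonneg _) ?_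
  have := sh_le (a := hh) (w := t) hh_lt ht
  rwa [hh_conj] at this

lemma d1_ne {t : ℂ} (ht : ‖t‖ ≤ 1) : 1 - hh * t ≠ 0 := by
  have := sden_ne (a := hh) (w := t) hh_lt ht
  rwa [hh_conj] at this

lemma d2_ne {t : ℂ} (ht : ‖t‖ ≤ 1) : 1 + hh * t ≠ 0 := by
  have := d1_ne (t := -t) (by rwa [norm_neg])
  intro h
  apply this
  rw [← h]; ring

lemma br_mul1 {z t : ℂ} (ht : ‖t‖ ≤ 1) : br z t * (1 - hh * t) = z * (t - hh) := by
  rw [br, mul_assoc, div_mul_cancel₀ _ (d1_ne ht)]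

lemma br_mul2 {z t : ℂ} (ht : ‖t‖ ≤ 1) : br z (-t) * (1 + hh * t) = z * (-t - hh) := by
  have := br_mul1 (z := z) (t := -t) (by rwa [norm_neg])
  rw [← this]; ring

/-- shift of a point -/
noncomputable def sh (ξ w : ℂ) : ℂ := (w - ξ) / (1 - conj ξ * w)

lemma den_eq {ξ z t : ℂ} (ht : ‖t‖ ≤ 1) :
    (1 + hh * conj ξ * z) ^ 2 - (hh + conj ξ * z) ^ 2 * t ^ 2 =
      ((1 - conj ξ * br z t) * (1 - hh * t)) * ((1 - conj ξ * br z (-t)) * (1 + hh * t)) := by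
  have h1 := d1_ne ht
  have h2 := d2_ne ht
  have h3 : (1 - conj ξ * br z t) * (1 - hh * t) = (1 + hh * conj ξ * z) - (hh + conj ξ * z) * t := by
    linear_combination (-conj ξ) * br_mul1 (z := z) ht
  have h4 : (1 - conj ξ * br z (-t)) * (1 + hh * t) =
      (1 + hh * conj ξ * z) + (hh + conj ξ * z) * t := by
    linear_combination (-conj ξ) * br_mul2 (z := z) ht
  rw [h3, h4]
  ring

lemma den_ne {ξ z t : ℂ} (hξ : ‖ξ‖ < 1) (hz : ‖z‖ ≤ 1) (ht : ‖t‖ ≤ 1) :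
    (1 + hh * conj ξ * z) ^ 2 - (hh + conj ξ * z) ^ 2 * t ^ 2 ≠ 0 := by
  rw [den_eq ht]
  have h1 : ‖br z t‖ ≤ 1 := (br_le ht).trans hz
  have h2 : ‖br z (-t)‖ ≤ 1 := (br_le (by rwa [norm_neg])).trans hz
  exact mul_ne_zero (mul_ne_zero (sden_ne hξ h1) (d1_ne ht)) (mul_ne_zero (sden_ne hξ h2) (d2_ne ht))

lemma NN_eq {B : ℂ → ℂ} {ξ z t : ℂ} (hξ : ‖ξ‖ < 1) (hz : ‖z‖ ≤ 1) (ht : ‖t‖ ≤ 1)
    (hB : t ^ 2 = B z) : NN B ξ z = sh ξ (br z t) * sh ξ (br z (-t)) := by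
  have h1 := d1_ne ht
  have h2 := d2_ne ht
  have hb1 : ‖br z t‖ ≤ 1 := (br_le ht).trans hz
  have hb2 : ‖br z (-t)‖ ≤ 1 := (br_le (by rwa [norm_neg])).trans hz
  have hs1 := sden_ne hξ hb1
  have hs2 := sden_ne hξ hb2
  have hnum : (ξ + hh * z) ^ 2 - (hh * ξ + z) ^ 2 * t ^ 2 =
      ((br z t - ξ) * (1 - hh * t)) * ((br z (-t) - ξ) * (1 + hh * t)) := by
    have h3 : (br z t - ξ) * (1 - hh * t) = -(ξ + hh * z) + (hh * ξ + z) * t := by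
      linear_combination br_mul1 (z := z) ht
    have h4 : (br z (-t) - ξ) * (1 + hh * t) = -(ξ + hh * z) - (hh * ξ + z) * t := by
      linear_combination br_mul2 (z := z) ht
    rw [h3, h4]
    ring
  rw [NN, ← hB, hnum, den_eq ht, sh, sh]
  rw [div_mul_div_comm, div_eq_div_iff (mul_ne_zero (mul_ne_zero hs1 h1) (mul_ne_zero hs2 h2))
    (mul_ne_zero hs1 hs2)]
  ring

lemma exists_root {w : ℂ} (hw : ‖w‖ ≤ 1) : ∃ t : ℂ, t ^ 2 = w ∧ ‖t‖ ≤ 1 := by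
  obtain ⟨t, ht⟩ := IsSquare.exists_sq w (IsAlgClosed.exists_pow_nat_eq w (n := 2) (by norm_num)
    |>.imp fun z hz => by rw [← hz]; ring)
  refine ⟨t, ht.symm, ?_⟩
  rw [ht, norm_pow] at hw
  exact (pow_le_one_iff_of_nonneg (norm_nonneg _) (by norm_num)).1 hw

end Pool.Agent.Y296.QP
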