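import Pool.Agent.Y296.QP.Fro

set_option autoImplicit false

open MeasureTheory Filter Topology Complex Metric Set
open scoped ComplexConjugate ENNReal

namespace Pool.Agent.Y296.QP

open Pool.Agent.Helper34.Dg

lemma sh_norm_le {ξ w : ℂ} (hξ : ‖ξ‖ < 1) (hw : ‖w‖ ≤ 1) : ‖sh ξ w‖ ≤ 1 := sh_le hξ hw

lemma Gf_mul_le {u v : ℂ} : Gf (u * v) ≤ Gf u + Gf v := by
  unfold Gf
  by_cases hu : u = 0
  · rw [if_pos hu, top_add]; exact le_top
  by_cases hv : v = 0
  · rw [if_pos hv, add_top]; exact le_top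
  rw [if_neg hu, if_neg hv, if_neg (mul_ne_zero hu hv), norm_mul,
    Real.log_mul (norm_ne_zero_iff.2 hu) (norm_ne_zero_iff.2 hv)]
  refine le_trans (le_of_eq ?_) ENNReal.ofReal_add_le
  congr 1; ring

/-- the bound for the mean over `ξ` -/
noncomputable def gg (s : ℝ) : ℝ≥0∞ := ENNReal.ofReal (Real.log 2 - Real.posLog (2 * s))

lemma gg_anti {s t : ℝ} (h0 : 0 ≤ s) (h : s ≤ t) : gg t ≤ gg s := by
  apply ENNReal.ofReal_le_ofReal
  have : Real.posLog (2 * s) ≤ Real.posLog (2 * t) := by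
    apply Real.posLog_le_posLog (by linarith) (by linarith)
  linarith

/-- lower bound for the modulus of both branches -/
noncomputable def mm (B : ℂ → ℂ) (z : ℂ) : ℝ := Real.sqrt (‖z‖ ^ 2 * (1 - 3 * (1 - ‖B z‖)))

lemma mm_le {B : ℂ → ℂ} {z t : ℂ} (ht : ‖t‖ ≤ 1) (hB : t ^ 2 = B z) : mm B z ≤ ‖br z t‖ := by
  rw [mm, Real.sqrt_le_left (norm_nonneg _)]
  have h1 := (sh_bounds (a := hh) (w := t) hh_norm ht).1
  rw [hh_conj] at h1
  have h2 : ‖B z‖ = ‖t‖ ^ 2 := by rw [← hB, norm_pow]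
  rw [h2, br, norm_mul, mul_pow]
  exact mul_le_mul_of_nonneg_left h1 (by positivity)

lemma A_meas (w : ℂ) (hw : ‖w‖ ≤ 1) :
    Measurable fun θ : T => Gf (sh (((1 / 2 : ℝ) : ℂ) * e 1 θ) w) := by
  refine Gf_meas.comp (Continuous.measurable ?_)
  have hAc : Continuous fun θ : T => ((1 / 2 : ℝ) : ℂ) * e 1 θ := continuous_const.mul (e_cont 1)
  unfold sh
  refine Continuous.div (continuous_const.sub hAc) (continuous_const.sub
    ((Complex.continuous_conj.comp hAc).mul continuous_const)) fun θ => sden_ne ?_ hw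
  rw [norm_mul, Complex.norm_real, e_norm]
  norm_num

/-- mean over `ξ` of `-log |N_ξ (z)|` -/
lemma mean_le {B : ℂ → ℂ} {z : ℂ} (hz : ‖z‖ ≤ 1) (hB : ‖B z‖ ≤ 1) :
    ∫⁻ θ, Gf (NN B (((1 / 2 : ℝ) : ℂ) * e 1 θ) z) ∂mu ≤ gg (mm B z) + gg (mm B z) := by
  obtain ⟨t, ht, ht1⟩ := exists_root hB
  have htn : ‖-t‖ ≤ 1 := by rwa [norm_neg]
  have hb1 : ‖br z t‖ ≤ 1 := (br_le ht1).trans hz
  have hb2 : ‖br z (-t)‖ ≤ 1 := (br_le htn).trans hz
  have hA : ∀ θ : T, ‖((1 / 2 : ℝ) : ℂ) * e 1 θ‖ < 1 := by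
    intro θ
    rw [norm_mul, Complex.norm_real, e_norm]
    norm_num
  calc ∫⁻ θ, Gf (NN B (((1 / 2 : ℝ) : ℂ) * e 1 θ) z) ∂mu
      ≤ ∫⁻ θ, (Gf (sh (((1 / 2 : ℝ) : ℂ) * e 1 θ) (br z t)) +
          Gf (sh (((1 / 2 : ℝ) : ℂ) * e 1 θ) (br z (-t)))) ∂mu := by
        refine lintegral_mono fun θ => ?_
        rw [NN_eq (hA θ) hz ht1 ht]
        exact Gf_mul_le
    _ = gg ‖br z t‖ + gg ‖br z (-t)‖ := by
        rw [lintegral_add_left (A_meas _ hb1)]
        congr 1
        · exact avg hb1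
        · exact avg hb2
    _ ≤ gg (mm B z) + gg (mm B z) := by
        refine add_le_add (gg_anti (Real.sqrt_nonneg _) (mm_le ht1 ht))
          (gg_anti (Real.sqrt_nonneg _) (mm_le htn ?_))
        rw [neg_pow, ht]; norm_num

lemma NN_le {B : ℂ → ℂ} {ξ z : ℂ} (hξ : ‖ξ‖ < 1) (hz : ‖z‖ ≤ 1) (hB : ‖B z‖ ≤ 1) :
    ‖NN B ξ z‖ ≤ 1 := by
  obtain ⟨t, ht, ht1⟩ := exists_root hB
  have htn : ‖-t‖ ≤ 1 := by rwa [norm_neg]
  rw [NN_eq hξ hz ht1 ht, norm_mul]
  exact mul_le_one₀ (sh_norm_le hξ ((br_le ht1).trans hz)) (norm_nonneg _)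
    (sh_norm_le hξ ((br_le htn).trans hz))

lemma NN_den {B : ℂ → ℂ} {ξ z : ℂ} (hξ : ‖ξ‖ < 1) (hz : ‖z‖ ≤ 1) (hB : ‖B z‖ ≤ 1) :
    (1 + hh * conj ξ * z) ^ 2 - (hh + conj ξ * z) ^ 2 * B z ≠ 0 := by
  obtain ⟨t, ht, ht1⟩ := exists_root hB
  rw [← ht]
  exact den_ne hξ hz ht1

lemma NN_diff {B : ℂ → ℂ} (hBd : DifferentiableOn ℂ B disc) (hB1 : ∀ z ∈ disc, ‖B z‖ ≤ 1)
    {ξ : ℂ} (hξ : ‖ξ‖ < 1) : DifferentiableOn ℂ (NN B ξ) disc := by
  unfold NN
  refine DifferentiableOn.div ?_ ?_ fun z hz => NN_den hξ (mem_disc.1 hz).le (hB1 z hz)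
  · exact (by fun_prop : DifferentiableOn ℂ (fun z : ℂ => (ξ + hh * z) ^ 2) disc).sub
      ((by fun_prop : DifferentiableOn ℂ (fun z : ℂ => (hh * ξ + z) ^ 2) disc).mul hBd)
  · exact (by fun_prop : DifferentiableOn ℂ (fun z : ℂ => (1 + hh * conj ξ * z) ^ 2) disc).sub
      ((by fun_prop : DifferentiableOn ℂ (fun z : ℂ => (hh + conj ξ * z) ^ 2) disc).mul hBd)

/-- A variant of Frostman's theorem. -/
theorem fro {B : ℂ → ℂ} (hB : IsInner B) {bad : Set ℂ} (hbad : bad.Countable) :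
    ∃ ξ : ℂ, ‖ξ‖ = 1 / 2 ∧ ξ ∉ bad ∧ IsBlaschke (NN B ξ) := by
  set A : T → ℂ := fun θ => ((1 / 2 : ℝ) : ℂ) * e 1 θ with hAdef
  have hA : ∀ θ, ‖A θ‖ = 1 / 2 := by
    intro θ
    rw [hAdef]
    simp only
    rw [norm_mul, Complex.norm_real, e_norm]
    norm_num
  have hA1 : ∀ θ, ‖A θ‖ < 1 := fun θ => by rw [hA]; norm_num
  have hAc : Continuous A := continuous_const.mul (e_cont 1)
  set r : ℕ → ℝ := fun n => 1 - 1 / ((n : ℝ) + 2) with hrdef
  have hr : ∀ n, 0 < r n ∧ r n < 1 := by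
    intro n
    have h1 : (0 : ℝ) < (n : ℝ) + 2 := by positivity
    have h2 : 1 / ((n : ℝ) + 2) < 1 := by
      rw [div_lt_one h1]; linarith [(Nat.cast_nonneg n : (0 : ℝ) ≤ n)]
    have h3 : 0 < 1 / ((n : ℝ) + 2) := by positivity
    rw [hrdef]
    constructor <;> simp only <;> linarith
  have hrt : Tendsto r atTop (𝓝[<] 1) := by
    refine tendsto_nhdsWithin_iff.2 ⟨?_, Eventually.of_forall fun n => (hr n).2⟩
    have h1 : Tendsto (fun n : ℕ => 1 / ((n : ℝ) + 2)) atTop (𝓝 0) := by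
      have h2 := tendsto_natCast_atTop_atTop (R := ℝ)
      have h3 : Tendsto (fun n : ℕ => (n : ℝ) + 2) atTop atTop :=
        tendsto_atTop_add_const_right _ _ h2
      have h4 := h3.inv_tendsto_atTop
      refine h4.congr fun n => ?_
      rw [Pi.inv_apply, one_div]
    have h5 := h1.const_sub 1
    rw [sub_zero] at h5
    exact h5
  have hz : ∀ n t, ((r n : ℝ) : ℂ) * pt t ∈ disc := fun n t => re1_mem (hr n).1.le (hr n).2 t
  have hzn : ∀ n t, ‖((r n : ℝ) : ℂ) * pt t‖ = r n := fun n t => by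
    rw [norm_mul, show ‖pt t‖ = 1 from e_norm 1 t, mul_one, Complex.norm_real,
      Real.norm_of_nonneg (hr n).1.le]
  have hptc : Continuous pt := e_cont 1
  have huc : ∀ n, Continuous fun t : T => B (((r n : ℝ) : ℂ) * pt t) := fun n =>
    hB.1.1.continuousOn.comp_continuous (continuous_const.mul hptc) (hz n)
  have hule : ∀ n t, ‖B (((r n : ℝ) : ℂ) * pt t)‖ ≤ 1 := fun n t => inner_le hB (hz n t)
  set Φ : ℕ → T → T → ℝ≥0∞ := fun n θ t => Gf (NN B (A θ) (((r n : ℝ) : ℂ) * pt t)) with hΦdef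
  have hΦ : ∀ n, Measurable (Function.uncurry (Φ n)) := by
    intro n
    have hc : Continuous fun p : T × T => NN B (A p.1) (((r n : ℝ) : ℂ) * pt p.2) := by
      unfold NN
      have c1 : Continuous fun p : T × T => A p.1 := hAc.comp continuous_fst
      have c2 : Continuous fun p : T × T => ((r n : ℝ) : ℂ) * pt p.2 :=
        continuous_const.mul (hptc.comp continuous_snd)
      have c3 : Continuous fun p : T × T => B (((r n : ℝ) : ℂ) * pt p.2) :=
        (huc n).comp continuous_snd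
      have c4 : Continuous fun p : T × T => conj (A p.1) := Complex.continuous_conj.comp c1
      refine Continuous.div ?_ ?_ fun p => NN_den (hA1 p.1) (mem_disc.1 (hz n p.2)).le (hule n p.2)
      · exact ((c1.add (continuous_const.mul c2)).pow 2).sub
          ((((continuous_const.mul c1).add c2).pow 2).mul c3)
      · exact ((continuous_const.add ((continuous_const.mul c4).mul c2)).pow 2).sub
          (((continuous_const.add (c4.mul c2)).pow 2).mul c3)
    exact Gf_meas.comp hc.measurable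
  have hΦi : ∀ n, Measurable fun θ => ∫⁻ t, Φ n θ t ∂mu := fun n => (hΦ n).lintegral_prod_right'
  set d : T → ℝ≥0∞ := fun θ => liminf (fun n => ∫⁻ t, Φ n θ t ∂mu) atTop with hd
  have hdm : Measurable d := Measurable.liminf hΦi
  have hmmc : ∀ n, Continuous fun t : T => mm B (((r n : ℝ) : ℂ) * pt t) := by
    intro n
    unfold mm
    exact Real.continuous_sqrt.comp (((continuous_const.mul hptc).norm.pow 2).mul
      (continuous_const.sub (continuous_const.mul (continuous_const.sub (huc n).norm))))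
  have h1 : ∫⁻ θ, d θ ∂mu = 0 := by
    have h2 : ∫⁻ θ, d θ ∂mu ≤ liminf (fun n => ∫⁻ θ, ∫⁻ t, Φ n θ t ∂mu ∂mu) atTop :=
      lintegral_liminf_le hΦi
    have h3 : ∀ n, ∫⁻ θ, ∫⁻ t, Φ n θ t ∂mu ∂mu ≤
        ∫⁻ t, (gg (mm B (((r n : ℝ) : ℂ) * pt t)) + gg (mm B (((r n : ℝ) : ℂ) * pt t))) ∂mu := by
      intro n
      rw [lintegral_lintegral_swap (hΦ n).aemeasurable]
      refine lintegral_mono fun t => ?_
      exact mean_le (mem_disc.1 (hz n t)).le (hule n t)
    have h4 : Tendsto (fun n => ∫⁻ t, (gg (mm B (((r n : ℝ) : ℂ) * pt t)) +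
        gg (mm B (((r n : ℝ) : ℂ) * pt t))) ∂mu) atTop (𝓝 (∫⁻ t : T, 0 ∂mu)) := by
      refine tendsto_lintegral_of_dominated_convergence
        (fun _ => ENNReal.ofReal (Real.log 2) + ENNReal.ofReal (Real.log 2))
        (fun n => ?_) (fun n => ?_) ?_ ?_
      · have h5 : Measurable fun t : T => gg (mm B (((r n : ℝ) : ℂ) * pt t)) := by
          unfold gg
          refine ENNReal.measurable_ofReal.comp (measurable_const.sub ?_)
          exact (Real.continuous_posLog.comp (continuous_const.mul (hmmc n))).measurable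
        exact h5.add h5
      · refine Eventually.of_forall fun t => ?_
        have h6 : gg (mm B (((r n : ℝ) : ℂ) * pt t)) ≤ ENNReal.ofReal (Real.log 2) := by
          apply ENNReal.ofReal_le_ofReal
          have := Real.posLog_nonneg (x := 2 * mm B (((r n : ℝ) : ℂ) * pt t))
          linarith
        exact add_le_add h6 h6
      · simp
      · filter_upwards [hB.2] with t ht
        obtain ⟨w, hw, hwt⟩ := ht
        have h5 : Tendsto (fun n => ‖B (((r n : ℝ) : ℂ) * pt t)‖) atTop (𝓝 1) := by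
          have := (hwt.comp hrt).norm
          rw [hw] at this
          exact this
        have h51 : Tendsto r atTop (𝓝 1) := hrt.mono_right nhdsWithin_le_nhds
        have h52 : Tendsto (fun n => mm B (((r n : ℝ) : ℂ) * pt t)) atTop (𝓝 1) := by
          have h53 : Tendsto (fun n => Real.sqrt (r n ^ 2 *
              (1 - 3 * (1 - ‖B (((r n : ℝ) : ℂ) * pt t)‖)))) atTop
              (𝓝 (Real.sqrt (1 ^ 2 * (1 - 3 * (1 - 1))))) :=
            (Real.continuous_sqrt.tendsto _).comp ((h51.pow 2).mul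
              (tendsto_const_nhds.sub ((tendsto_const_nhds.sub h5).const_mul 3)))
          have h54 : Real.sqrt (1 ^ 2 * (1 - 3 * (1 - 1))) = 1 := by norm_num
          rw [h54] at h53
          refine h53.congr fun n => ?_
          rw [mm, hzn]
        have h6 : Tendsto (fun n => Real.log 2 - Real.posLog (2 * mm B (((r n : ℝ) : ℂ) * pt t)))
            atTop (𝓝 (Real.log 2 - Real.posLog (2 * 1))) :=
          tendsto_const_nhds.sub ((Real.continuous_posLog.tendsto _).comp (h52.const_mul 2))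
        have h7 : Real.log 2 - Real.posLog (2 * 1) = 0 := by
          rw [mul_one, Real.posLog_eq_log (by norm_num), sub_self]
        rw [h7] at h6
        have h8 := (ENNReal.continuous_ofReal.tendsto _).comp h6
        rw [ENNReal.ofReal_zero] at h8
        have h9 := h8.add h8
        rw [add_zero] at h9
        exact h9
    have h5 : ∫⁻ θ, d θ ∂mu ≤ liminf (fun n => ∫⁻ t, (gg (mm B (((r n : ℝ) : ℂ) * pt t)) +
        gg (mm B (((r n : ℝ) : ℂ) * pt t))) ∂mu) atTop :=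
      h2.trans (liminf_le_liminf (Eventually.of_forall h3))
    rw [h4.liminf_eq] at h5
    simpa using h5
  have h5 : d =ᵐ[mu] 0 := (lintegral_eq_zero_iff hdm).1 h1
  have h5b : ∀ᵐ θ : T ∂mu, ∀ w ∈ bad, A θ ≠ w :=
    (ae_ball_iff hbad).2 fun w _ => null_pt (1 / 2) (by norm_num) w
  obtain ⟨θ, hθ, hθb⟩ := (h5.and h5b).exists
  refine ⟨A θ, hA θ, fun hmem => hθb _ hmem rfl, ?_⟩
  have hNd := NN_diff hB.1.1 (fun z hz => inner_le hB hz) (hA1 θ)
  have hN1 : ∀ z ∈ disc, ‖NN B (A θ) z‖ ≤ 1 := fun z hz =>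
    NN_le (hA1 θ) (mem_disc.1 hz).le (inner_le hB hz)
  obtain ⟨z0, hz0, hne⟩ : ∃ z ∈ disc, NN B (A θ) z ≠ 0 := by
    by_contra hall
    push Not at hall
    have h6 : ∀ n, ∫⁻ t, Φ n θ t ∂mu = ⊤ := by
      intro n
      have h7 : ∀ t, Φ n θ t = ⊤ := fun t => by
        rw [hΦdef]
        simp only [Gf]
        rw [if_pos (hall _ (hz n t))]
      simp_rw [h7]
      simp
    have h8 : d θ = ⊤ := by
      rw [hd]
      simp only [h6]
      simp
    rw [hθ] at h8
    simp at h8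
  obtain ⟨S, hS1, hS2, hS3, hS4, hS5⟩ := factor hNd hN1 hz0 hne
  apply hS5
  obtain ⟨L, hL, hLe⟩ := exists_log hS1 hS2
  have hLn : ∀ z ∈ disc, ‖S z‖ = Real.exp (L z).re := fun z hz => by
    rw [← hLe z hz, Complex.norm_exp]
  have hF0 : ∀ z ∈ disc, 0 ≤ -(L z).re := by
    intro z hz
    have h1 := hS3 z hz
    rw [hLn z hz, Real.exp_le_one_iff] at h1
    linarith
  have h0d : (0 : ℂ) ∈ disc := mem_ball_self one_pos
  have hle : ∀ n, ENNReal.ofReal (-(L 0).re) ≤ ∫⁻ t, Φ n θ t ∂mu := by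
    intro n
    have hLc : Continuous fun t : T => -(L (((r n : ℝ) : ℂ) * pt t)).re :=
      (Complex.continuous_re.comp (hL.continuousOn.comp_continuous
        (continuous_const.mul hptc) (hz n))).neg
    have h6 := poisson hL.neg (hr n).1 (hr n).2 h0d
    have h7 : -(L 0).re = ∫ t, -(L (((r n : ℝ) : ℂ) * pt t)).re ∂mu := by
      have h8 : (-L) (((r n : ℝ) : ℂ) * 0) = -L 0 := by rw [mul_zero]; rfl
      rw [h8, Complex.neg_re] at h6
      rw [h6]
      congr 1
      funext t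
      rw [pker_zero, mul_one]
      rfl
    rw [h7, ofReal_integral_eq_lintegral_ofReal (cont_intR hLc)
      (Eventually.of_forall fun t => hF0 _ (hz n t))]
    refine lintegral_mono fun t => ?_
    rw [hΦdef]
    simp only [Gf]
    split_ifs with h9
    · exact le_top
    · apply ENNReal.ofReal_le_ofReal
      have h10 : 0 < ‖NN B (A θ) (((r n : ℝ) : ℂ) * pt t)‖ := norm_pos_iff.2 h9
      have h11 := Real.log_le_log h10 (hS4 _ (hz n t))
      rw [hLn _ (hz n t), Real.log_exp] at h11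
      linarith
  have hd0 : ENNReal.ofReal (-(L 0).re) ≤ d θ := by
    refine le_liminf_of_le (by isBoundedDefault) ?_
    exact Eventually.of_forall hle
  rw [hθ, Pi.zero_apply] at hd0
  have h12 : -(L 0).re ≤ 0 := by
    exact ENNReal.ofReal_eq_zero.1 (nonpos_iff_eq_zero.1 hd0)
  have h13 := hF0 0 h0d
  rw [hLn 0 h0d]
  have h14 : (L 0).re = 0 := by linarith
  rw [h14, Real.exp_zero]

end Pool.Agent.Y296.QP
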