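import Pool.Agent.Y296.QP.Qp
import Pool.Agent.Y296.QP.Fro2

set_option autoImplicit false

namespace Pool.Agent.Y296.QP

open Filter Topology Manifold Metric Set
open Pool.Agent.Helper34.Dg
open scoped ENNReal ComplexConjugate

/-- a Blaschke product without zeros is constant -/
lemma blaschke_const {b : ℂ → ℂ} (hb : IsBlaschke b) (h0 : ∀ z ∈ disc, b z ≠ 0) {z w : ℂ}
    (hz : z ∈ disc) (hw : w ∈ disc) : b z = b w := by
  obtain ⟨c, ι, a, hc, ha, hs, hbd⟩ := hb.data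
  have hemp : IsEmpty ι := by
    refine ⟨fun i => ?_⟩
    refine h0 (a i) (ha i) ?_
    rw [hbd _ (ha i), fam_split ha hs {i} (ha i), Finset.prod_singleton,
      (bfac_eq_zero (ha i) (ha i)).2 rfl]
    ring
  rw [hbd z hz, hbd w hw]
  simp [bprod]

/-- the zeros of a Blaschke product -/
lemma blaschke_zeros {b : ℂ → ℂ} (hb : IsBlaschke b) : {z | z ∈ disc ∧ b z = 0}.Countable := by
  obtain ⟨c, ι, a, hc, ha, hs, hbd⟩ := hb.data
  have hcn : (range a).Countable := by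
    have h1 : (Function.support fun i => 1 - ‖a i‖).Countable := hs.countable_support
    have h2 : (Function.support fun i => 1 - ‖a i‖) = univ := by
      ext i
      have := mem_disc.1 (ha i)
      simp only [Function.mem_support, mem_univ, iff_true]
      linarith
    rw [h2] at h1
    rw [← image_univ]
    exact h1.image a
  refine hcn.mono ?_
  rintro z ⟨hz, h0⟩
  by_contra hno
  have hne : ∀ i, z ≠ a i := fun i h => hno ⟨i, h.symm⟩
  have h1 := fam_ne ha hs hz hne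
  rw [hbd z hz] at h0
  rcases mul_eq_zero.1 h0 with h2 | h2
  · rw [h2, norm_zero] at hc
    norm_num at hc
  · exact h1 h2

lemma sh_zero {ξ w : ℂ} (hξ : ‖ξ‖ < 1) (hw : ‖w‖ ≤ 1) (h : sh ξ w = 0) : w = ξ := by
  rw [sh, div_eq_zero_iff] at h
  rcases h with h | h
  · exact sub_eq_zero.1 h
  · exact absurd h (sden_ne hξ hw)

lemma sh_inj {ξ w v : ℂ} (hξ : ‖ξ‖ < 1) (hw : ‖w‖ ≤ 1) (hv : ‖v‖ ≤ 1) (h : sh ξ w = sh ξ v) :
    w = v := by
  have h1 := sden_ne hξ hw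
  have h2 := sden_ne hξ hv
  rw [sh, sh, div_eq_div_iff h1 h2] at h
  have h3 : (w - v) * (1 - conj ξ * ξ) = 0 := by linear_combination h
  rcases mul_eq_zero.1 h3 with h4 | h4
  · exact sub_eq_zero.1 h4
  · exact absurd h4 (sden_ne hξ hξ.le)

lemma sh_lt {ξ w : ℂ} (hξ : ‖ξ‖ < 1) (hw : ‖w‖ < 1) : ‖sh ξ w‖ < 1 := by
  have h := sh_id hξ hw.le
  have h1 : 0 < (1 - ‖ξ‖ ^ 2) * (1 - ‖w‖ ^ 2) := by
    apply mul_pos <;> nlinarith [norm_nonneg ξ, norm_nonneg w]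
  rw [← h] at h1
  have h2 : 0 ≤ ‖1 - conj ξ * w‖ ^ 2 := by positivity
  have h3 : 0 < 1 - ‖(w - ξ) / (1 - conj ξ * w)‖ ^ 2 := by
    by_contra hc
    push Not at hc
    nlinarith
  have h4 : ‖sh ξ w‖ ^ 2 < 1 := by
    have : sh ξ w = (w - ξ) / (1 - conj ξ * w) := rfl
    rw [this]; linarith
  nlinarith [norm_nonneg (sh ξ w)]

/-- both branches take the value `ξ` only at the zeros of `t` -/
lemma br_common {ξ z t : ℂ} (hξ : ξ ≠ 0) (ht : ‖t‖ ≤ 1) (h1 : br z t = ξ) (h2 : br z (-t) = ξ) :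
    t = 0 ∧ ξ = -hh * z := by
  have e1 := br_mul1 (z := z) ht
  have e2 := br_mul2 (z := z) ht
  rw [h1] at e1
  rw [h2] at e2
  have hz : z ≠ 0 := by
    intro h
    rw [h, br, zero_mul] at h1
    exact hξ h1.symm
  have h3 : z * (t * (2 * (1 - hh ^ 2))) = 0 := by
    linear_combination (1 - hh * t) * e2 - (1 + hh * t) * e1
  have h4 : (2 : ℂ) * (1 - hh ^ 2) ≠ 0 := by
    rw [hh]; norm_num
  have h5 : t = 0 := by
    rcases mul_eq_zero.1 h3 with h | h
    · exact absurd h hz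
    · rcases mul_eq_zero.1 h with h | h
      · exact h
      · exact absurd h h4
  refine ⟨h5, ?_⟩
  rw [h5] at e1
  linear_combination e1

variable {X : Type*} [TopologicalSpace X] [ChartedSpace ℂ X]

namespace Setting

variable (S : Setting X)

lemma mem (x : X) : S.φ x ∈ disc := mem_disc'.2 (S.φ_lt x)

lemma B_le {z : ℂ} (hz : z ∈ disc) : ‖S.B z‖ ≤ 1 := inner_le S.B_bl.inner hz

lemma ϑ_le (x : X) : ‖S.ϑ x‖ ≤ 1 := by
  have h := S.B_le (S.mem x)
  rw [← S.ϑ_sq x, norm_pow] at h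
  exact (pow_le_one_iff_of_nonneg (norm_nonneg _) (by norm_num)).1 h

lemma ϑ_crit {x : X} (hx : Crit S.φ x) : S.ϑ x = 0 := by
  have h := (S.B_zero _ (S.mem x)).2 ⟨x, hx, rfl⟩
  rw [← S.ϑ_sq x] at h
  exact pow_eq_zero_iff (n := 2) (by norm_num) |>.1 h

/-- two critical points with different critical values -/
lemma two_crit : ∃ x y, Crit S.φ x ∧ Crit S.φ y ∧ S.φ x ≠ S.φ y := by
  by_contra hno
  push Not at hno
  obtain ⟨x0, hx0⟩ := S.φ_crit.nonempty
  have h1 : Summable fun _ : {x | Crit S.φ x} => 1 - ‖S.φ x0‖ := by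
    refine S.sum_lt.congr fun x => ?_
    rw [hno x x0 x.2 hx0]
  have : Infinite {x | Crit S.φ x} := S.φ_crit.to_subtype
  have h2 : (1 - ‖S.φ x0‖) = 0 := (summable_const_iff _).1 h1
  have := S.φ_lt x0
  linarith

lemma nonconst : ∃ x y, S.φ x ≠ S.φ y := by
  obtain ⟨x, y, -, -, h⟩ := S.two_crit
  exact ⟨x, y, h⟩

/-- the quasi-proper map of the disproof -/
noncomputable def map (ξ : ℂ) (x : X) : ℂ := sh ξ (br (S.φ x) (S.ϑ x))

lemma br_lt (x : X) : ‖br (S.φ x) (S.ϑ x)‖ < 1 := (br_le (S.ϑ_le x)).trans_lt (S.φ_lt x)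

lemma map_hol {ξ : ℂ} (hξ : ‖ξ‖ < 1) : Hol (S.map ξ) := by
  have h1 : Hol fun x => (S.ϑ x - hh) / (1 - hh * S.ϑ x) := by
    intro x
    have h2 : DifferentiableAt ℂ (fun t : ℂ => (t - hh) / (1 - hh * t)) (S.ϑ x) :=
      DifferentiableAt.div (by fun_prop) (by fun_prop) (d1_ne (S.ϑ_le x))
    exact h2.comp_mdifferentiableAt (S.ϑ_hol x)
  have h3 : Hol fun x => br (S.φ x) (S.ϑ x) := S.φ_hol.mul h1
  intro x
  have h4 : DifferentiableAt ℂ (fun w : ℂ => (w - ξ) / (1 - conj ξ * w)) (br (S.φ x) (S.ϑ x)) :=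
    DifferentiableAt.div (by fun_prop) (by fun_prop) (sden_ne hξ (S.br_lt x).le)
  exact DifferentiableAt.comp_mdifferentiableAt (f := fun x => br (S.φ x) (S.ϑ x)) h4 (h3 x)

lemma map_σ (ξ : ℂ) (x : X) : S.map ξ (S.σ x) = sh ξ (br (S.φ x) (-S.ϑ x)) := by
  rw [map, S.σ_φ, S.ϑ_σ]

lemma map_norm {ξ : ℂ} (hξ : ‖ξ‖ < 1) (x : X) :
    S.map ξ x * S.map ξ (S.σ x) = NN S.B ξ (S.φ x) := by
  rw [map_σ, map, NN_eq hξ (S.φ_lt x).le (S.ϑ_le x) (S.ϑ_sq x)]

end Setting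

omit [TopologicalSpace X] [ChartedSpace ℂ X] in
lemma partial_zero {g : ℕ → X → ℂ} {θ : X → ℂ}
    (h : ∀ x, Tendsto (fun n => ∏ i ∈ Finset.range n, g i x) atTop (𝓝 (θ x))) {i : ℕ} {x : X}
    (hi : g i x = 0) : θ x = 0 := by
  refine tendsto_nhds_unique (h x) ?_
  refine tendsto_const_nhds.congr' ?_
  filter_upwards [eventually_gt_atTop i] with n hn
  exact (Finset.prod_eq_zero (Finset.mem_range.2 hn) hi).symm

/-- The disproof: there is a quasi-proper map which is not a product of members of `𝓛`. -/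
theorem disproof [IsManifold 𝓘(ℂ) 1 X] [T2Space X] [ConnectedSpace X] (S : Setting X) :
    ∃ θ : X → ℂ, QuasiProper θ ∧ ¬ IsProdOf (InL S) θ := by
  have hcount : ((fun z => -hh * z) '' {z | z ∈ disc ∧ S.B z = 0}).Countable :=
    (blaschke_zeros S.B_bl).image _
  obtain ⟨ξ, hξn, hbad, hbl⟩ := fro S.B_bl.inner hcount
  have hξ : ‖ξ‖ < 1 := by rw [hξn]; norm_num
  have hξ0 : ξ ≠ 0 := by
    intro h; rw [h, norm_zero] at hξn; norm_num at hξn
  refine ⟨S.map ξ, ?_, ?_⟩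
  · exact quasiProper_of_norm S.φ_hol S.φ_lt S.φ_proper S.nonconst (S.map_hol hξ)
      (fun x => sh_lt hξ (S.br_lt x)) hbl (fun x => S.map_norm hξ x)
  -- no common zeros
  have hnc : ∀ x, S.map ξ x = 0 → S.map ξ (S.σ x) = 0 → False := by
    intro x h1 h2
    rw [S.map_σ] at h2
    have hn : ‖-S.ϑ x‖ ≤ 1 := by rw [norm_neg]; exact S.ϑ_le x
    have h3 := sh_zero hξ (S.br_lt x).le h1
    have h4 := sh_zero hξ ((br_le hn).trans (S.φ_lt x).le) h2
    obtain ⟨h5, h6⟩ := br_common hξ0 (S.ϑ_le x) h3 h4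
    apply hbad
    refine ⟨S.φ x, ⟨S.mem x, ?_⟩, h6.symm⟩
    rw [← S.ϑ_sq x, h5]; ring
  obtain ⟨x, y, hx, hy, hxy⟩ := S.two_crit
  have hval : ∀ w, S.ϑ w = 0 → S.map ξ w = sh ξ (-hh * S.φ w) := by
    intro w hw
    rw [Setting.map, hw, br]
    congr 1
    simp
    ring
  have hnz : ∀ w, S.ϑ w = 0 → S.map ξ w ≠ 0 := by
    intro w hw h0
    refine hnc w h0 ?_
    have h1 : S.ϑ (S.σ w) = 0 := by rw [S.ϑ_σ, hw, neg_zero]
    rw [hval _ h1, S.σ_φ, ← hval w hw]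
    exact h0
  have hle : ∀ w, ‖-hh * S.φ w‖ ≤ 1 := by
    intro w
    rw [norm_mul, norm_neg, hh_norm]
    have := S.φ_lt w
    linarith
  have hdiff : S.map ξ x ≠ S.map ξ y := by
    rw [hval x (S.ϑ_crit hx), hval y (S.ϑ_crit hy)]
    intro h
    have h1 := sh_inj hξ (hle x) (hle y) h
    have h2 : (-hh) ≠ 0 := by
      rw [neg_ne_zero]; intro h3; have := hh_norm; rw [h3, norm_zero] at this; norm_num at this
    exact hxy (mul_left_cancel₀ h2 h1)
  -- all factors agree at `x` and `y`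
  have hfac : ∀ g : X → ℂ, InL S g → (∀ w, g w = 0 → S.map ξ w = 0) → g x = g y := by
    intro g hg hz
    rcases hg with ⟨b, hb, hgb⟩ | hgt | ⟨b, u, hb, -, -, hgb⟩
    · have hb0 : ∀ z ∈ disc, b z ≠ 0 := by
        intro z hzd h0
        obtain ⟨w, hw⟩ := surj_disc S.φ_hol S.φ_lt S.φ_proper S.nonconst hzd
        refine hnc w (hz w ?_) (hz (S.σ w) ?_)
        · rw [hgb, hw, h0]
        · rw [hgb, S.σ_φ, hw, h0]
      rw [hgb, hgb]
      exact blaschke_const hb hb0 (S.mem x) (S.mem y)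
    · exact absurd (hz x ((hgt x).trans (S.ϑ_crit hx))) (hnz x (S.ϑ_crit hx))
    · rw [hgb, hgb, S.ϑ_crit hx, S.ϑ_crit hy, mul_zero, mul_zero]
  rintro (⟨n, g, hg, hprod⟩ | ⟨g, hg, hlim⟩)
  · apply hdiff
    rw [hprod x, hprod y]
    refine Finset.prod_congr rfl fun i hi => ?_
    refine hfac (g i) (hg i (Finset.mem_range.1 hi)) fun w hw => ?_
    rw [hprod w]
    exact Finset.prod_eq_zero hi hw
  · apply hdiff
    refine tendsto_nhds_unique (hlim x) ((hlim y).congr fun n => ?_)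
    refine Finset.prod_congr rfl fun i _ => ?_
    exact (hfac (g i) (hg i) fun w hw => partial_zero hlim hw).symm

end Pool.Agent.Y296.QP
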