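import Pool.Agent.Y296.QP.Cov

set_option autoImplicit false

namespace Pool.Agent.Y296.QP

open Filter Topology Manifold Metric Set
open Pool.Agent.Helper34.Dg
open scoped ENNReal ComplexConjugate

section tail

variable {ι : Type} {a : ι → ℂ} (ha : ∀ i, a i ∈ disc) (hs : Summable fun i => 1 - ‖a i‖)

include ha hs in
lemma bprod_sub_one_le {z : ℂ} (hz : z ∈ disc) :
    ‖bprod a z - 1‖ ≤ Real.exp (∑' i, ‖bfac (a i) z - 1‖) - 1 := by
  have h1 := fam_hasProd ha hs hz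
  have h2 : Tendsto (fun s : Finset ι => ‖∏ i ∈ s, bfac (a i) z - 1‖) atTop
      (𝓝 ‖bprod a z - 1‖) := (h1.sub_const 1).norm
  refine le_of_tendsto h2 (Eventually.of_forall fun s => ?_)
  have h3 := s.norm_prod_one_add_sub_one_le (fun i => bfac (a i) z - 1)
  have h4 : ∏ i ∈ s, (1 + (bfac (a i) z - 1)) = ∏ i ∈ s, bfac (a i) z :=
    Finset.prod_congr rfl fun i _ => by ring
  rw [h4] at h3
  refine h3.trans ?_
  gcongr
  exact (fam_summable ha hs hz).sum_le_tsum s fun i _ => norm_nonneg _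

include ha hs in
lemma tail_tendsto {z : ℂ} (hz : z ∈ disc) :
    Tendsto (fun s : Finset ι => bprod (fun i : ((s : Set ι)ᶜ : Set ι) => a i) z) atTop (𝓝 1) := by
  have hsum := fam_summable ha hs hz
  have h1 : Tendsto (fun s : Finset ι => ∑' i : ((s : Set ι)ᶜ : Set ι), ‖bfac (a i) z - 1‖) atTop
      (𝓝 0) := by
    have h2 : ∀ s : Finset ι, ∑' i : ((s : Set ι)ᶜ : Set ι), ‖bfac (a i) z - 1‖ =
        (∑' i, ‖bfac (a i) z - 1‖) - ∑ i ∈ s, ‖bfac (a i) z - 1‖ := by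
      intro s
      have := hsum.sum_add_tsum_compl (s := s)
      linarith
    simp_rw [h2]
    have h3 : Tendsto (fun s : Finset ι => ∑ i ∈ s, ‖bfac (a i) z - 1‖) atTop
        (𝓝 (∑' i, ‖bfac (a i) z - 1‖)) := hsum.hasSum
    have h4 := h3.const_sub (∑' i, ‖bfac (a i) z - 1‖)
    rwa [sub_self] at h4
  rw [tendsto_iff_norm_sub_tendsto_zero]
  have h5 : Tendsto (fun s : Finset ι =>
      Real.exp (∑' i : ((s : Set ι)ᶜ : Set ι), ‖bfac (a i) z - 1‖) - 1) atTop (𝓝 0) := by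
    have := ((Real.continuous_exp.tendsto 0).comp h1).sub_const 1
    rwa [Real.exp_zero, sub_self] at this
  refine squeeze_zero (fun _ => norm_nonneg _) (fun s => ?_) h5
  exact bprod_sub_one_le (a := fun i : ((s : Set ι)ᶜ : Set ι) => a i) (fun i => ha i)
    (hs.subtype _) hz

/-- lower bound of a finite Blaschke product on the circle of radius `ρ` -/
noncomputable def lowb (a : ι → ℂ) (s : Finset ι) (ρ : ℝ) : ℝ :=
  ∏ i ∈ s, Real.sqrt (1 - (1 - ρ ^ 2) / (1 - ‖a i‖) ^ 2)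

lemma lowb_tendsto (s : Finset ι) : Tendsto (lowb a s) (𝓝[<] 1) (𝓝 1) := by
  have h1 : Tendsto (lowb a s) (𝓝[<] 1)
      (𝓝 (∏ i ∈ s, Real.sqrt (1 - (1 - (1 : ℝ) ^ 2) / (1 - ‖a i‖) ^ 2))) := by
    refine tendsto_finsetProd _ fun i _ => ?_
    apply Tendsto.mono_left _ nhdsWithin_le_nhds
    apply Continuous.tendsto
    fun_prop
  have h2 : (∏ i ∈ s, Real.sqrt (1 - (1 - (1 : ℝ) ^ 2) / (1 - ‖a i‖) ^ 2)) = 1 := by
    apply Finset.prod_eq_one
    intro i _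
    norm_num
  rwa [h2] at h1

include ha in
lemma lowb_le (s : Finset ι) {w : ℂ} (hw : w ∈ disc) :
    lowb a s ‖w‖ ≤ ‖∏ i ∈ s, bfac (a i) w‖ := by
  rw [norm_prod, lowb]
  refine Finset.prod_le_prod (fun _ _ => Real.sqrt_nonneg _) fun i _ => ?_
  rw [Real.sqrt_le_left (norm_nonneg _)]
  have := one_sub_bfac_le (ha i) hw
  linarith

end tail

variable {X : Type*} [TopologicalSpace X] [ChartedSpace ℂ X]

/-- Blaschke products of a proper map can be divided out of bounds. -/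
theorem bound_of_blaschke [IsManifold 𝓘(ℂ) 1 X] [T2Space X] [ConnectedSpace X] {φ : X → ℂ}
    (hφ : Hol φ) (hlt : ∀ x, ‖φ x‖ < 1)
    (hprop : ∀ r : ℝ, r < 1 → IsCompact {x | ‖φ x‖ ≤ r}) (hnc : ∃ x y, φ x ≠ φ y)
    {b : ℂ → ℂ} (hb : IsBlaschke b) {f : X → ℂ} (hf : Hol f) {M : ℝ}
    (hM : ∀ x, ‖b (φ x) * f x‖ ≤ M) : ∀ x, ‖f x‖ ≤ M := by
  obtain ⟨c, ι, a, hc, ha, hs, hbd⟩ := hb.data
  intro x
  have hd : ∀ y, φ y ∈ disc := fun y => mem_disc'.2 (hlt y)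
  have key : ∀ s : Finset ι,
      ‖f x‖ * ‖bprod (fun i : ((s : Set ι)ᶜ : Set ι) => a i) (φ x)‖ ≤ M := by
    intro s
    set F : X → ℂ := fun y => f y * bprod (fun i : ((s : Set ι)ᶜ : Set ι) => a i) (φ y) with hF
    have hdiff := fam_diff (a := fun i : ((s : Set ι)ᶜ : Set ι) => a i) (fun i => ha i)
      (hs.subtype _)
    have hFh : Hol F := hf.mul (Hol.comp_disc hφ hlt hdiff)
    rw [← norm_mul]
    have hev : ∀ᶠ ρ in 𝓝[<] (1 : ℝ), ‖F x‖ ≤ M / lowb a s ρ := by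
      have e1 : ∀ᶠ ρ in 𝓝[<] (1 : ℝ), 0 < lowb a s ρ :=
        (lowb_tendsto s).eventually (lt_mem_nhds one_pos)
      have e2 : ∀ᶠ ρ in 𝓝[<] (1 : ℝ), ‖φ x‖ < ρ :=
        (tendsto_id.mono_left nhdsWithin_le_nhds).eventually (lt_mem_nhds (hlt x))
      filter_upwards [e1, e2, self_mem_nhdsWithin] with ρ h1 h2 h3
      refine max_principle hφ hprop hnc hFh (r := ρ) h3 (fun y hy => ?_) x h2.le
      rw [le_div_iff₀ h1]
      have h4 := lowb_le ha s (hd y)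
      rw [hy] at h4
      refine (mul_le_mul_of_nonneg_left h4 (norm_nonneg _)).trans (le_trans (le_of_eq ?_) (hM y))
      rw [← norm_mul, hbd _ (hd y), fam_split ha hs s (hd y), hF]
      rw [norm_mul, norm_mul, norm_mul, norm_mul, norm_mul, hc]
      ring
    have hlim : Tendsto (fun ρ => M / lowb a s ρ) (𝓝[<] 1) (𝓝 (M / 1)) :=
      tendsto_const_nhds.div (lowb_tendsto s) one_ne_zero
    rw [div_one] at hlim
    exact ge_of_tendsto hlim hev
  have h1 : Tendsto (fun s : Finset ι =>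
      ‖f x‖ * ‖bprod (fun i : ((s : Set ι)ᶜ : Set ι) => a i) (φ x)‖) atTop (𝓝 (‖f x‖ * ‖(1 : ℂ)‖)) :=
    (tail_tendsto ha hs (hd x)).norm.const_mul _
  rw [norm_one, mul_one] at h1
  exact le_of_tendsto h1 (Eventually.of_forall key)

lemma bfac_isBlaschke {z : ℂ} (hz : z ∈ disc) : IsBlaschke (bfac z) := by
  refine ⟨1, Unit, fun _ => z, norm_one, fun _ => hz, Summable.of_finite, fun w _ => ?_⟩
  refine ⟨bfac z w, ?_, (one_mul _).symm⟩
  have := hasProd_fintype (fun _ : Unit => bfac z w)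
  simpa using this

/-- proper maps are surjective -/
theorem surj_disc [IsManifold 𝓘(ℂ) 1 X] [T2Space X] [ConnectedSpace X] {φ : X → ℂ}
    (hφ : Hol φ) (hlt : ∀ x, ‖φ x‖ < 1)
    (hprop : ∀ r : ℝ, r < 1 → IsCompact {x | ‖φ x‖ ≤ r}) (hnc : ∃ x y, φ x ≠ φ y)
    {z : ℂ} (hz : z ∈ disc) : ∃ x, φ x = z := by
  by_contra hno
  push Not at hno
  have hd : ∀ y, φ y ∈ disc := fun y => mem_disc'.2 (hlt y)
  have hne : ∀ y, bfac z (φ y) ≠ 0 := fun y h => hno y ((bfac_eq_zero hz (hd y)).1 h)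
  have hf : Hol fun y => (bfac z (φ y))⁻¹ := by
    intro y
    have h1 : DifferentiableAt ℂ (fun w => (bfac z w)⁻¹) (φ y) :=
      (((bfac_diff hz) _ (hd y)).differentiableAt (isOpen_ball.mem_nhds (hd y))).inv (hne y)
    exact h1.comp_mdifferentiableAt (hφ y)
  obtain ⟨x⟩ : Nonempty X := inferInstance
  have h1 := bound_of_blaschke hφ hlt hprop hnc (bfac_isBlaschke hz) hf (M := 1)
    (fun y => by rw [mul_inv_cancel₀ (hne y), norm_one]) x
  rw [norm_inv] at h1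
  have h2 : 0 < ‖bfac z (φ x)‖ := norm_pos_iff.2 (hne x)
  have h3 : 1 ≤ ‖bfac z (φ x)‖ := by
    by_contra hlt'
    push Not at hlt'
    have := one_lt_inv₀ h2 |>.2 hlt'
    linarith
  have h4 := one_sub_bfac hz (hd x)
  have h5 : 0 < (1 - ‖z‖ ^ 2) * (1 - ‖φ x‖ ^ 2) := by
    have h6 := mem_disc'.1 hz
    have h7 := hlt x
    have h8 := norm_nonneg z
    have h9 := norm_nonneg (φ x)
    apply mul_pos <;> nlinarith
  rw [← h4] at h5
  have h6 : (1 - ‖bfac z (φ x)‖ ^ 2) ≤ 0 := by nlinarith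
  have h7 : 0 ≤ ‖1 - conj z * φ x‖ ^ 2 := by positivity
  nlinarith

/-- the criterion for quasi-properness -/
theorem quasiProper_of_norm [IsManifold 𝓘(ℂ) 1 X] [T2Space X] [ConnectedSpace X] {φ : X → ℂ}
    (hφ : Hol φ) (hlt : ∀ x, ‖φ x‖ < 1)
    (hprop : ∀ r : ℝ, r < 1 → IsCompact {x | ‖φ x‖ ≤ r}) (hnc : ∃ x y, φ x ≠ φ y)
    {σ : X → X} {θ : X → ℂ} (hθ : Hol θ) (h1 : ∀ x, ‖θ x‖ < 1) {b : ℂ → ℂ}
    (hb : IsBlaschke b) (h : ∀ x, θ x * θ (σ x) = b (φ x)) : QuasiProper θ := by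
  refine ⟨hθ, h1, fun f hf => le_antisymm ?_ ?_⟩
  · by_cases htop : ⨆ x, ‖θ x * f x‖ₑ = ⊤
    · rw [htop]; exact le_top
    set M : ℝ := (⨆ x, ‖θ x * f x‖ₑ).toReal with hMdef
    have hle : ∀ x, ‖θ x * f x‖ ≤ M := by
      intro x
      have h2 : ‖θ x * f x‖ₑ ≤ ⨆ x, ‖θ x * f x‖ₑ := le_iSup (fun x => ‖θ x * f x‖ₑ) x
      have h3 := ENNReal.toReal_mono htop h2
      rwa [toReal_enorm] at h3
    have h4 : ∀ x, ‖f x‖ ≤ M := by
      refine bound_of_blaschke hφ hlt hprop hnc hb hf fun x => ?_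
      rw [← h x, mul_assoc, mul_comm (θ (σ x)) (f x), ← mul_assoc, norm_mul]
      exact (mul_le_of_le_one_right (norm_nonneg _) (h1 _).le).trans (hle x)
    refine iSup_le fun x => ?_
    rw [← ENNReal.ofReal_toReal htop, ← ofReal_norm]
    exact ENNReal.ofReal_le_ofReal (h4 x)
  · refine iSup_mono fun x => ?_
    rw [← ofReal_norm, ← ofReal_norm]
    apply ENNReal.ofReal_le_ofReal
    rw [norm_mul]
    exact mul_le_of_le_one_left (norm_nonneg _) (h1 x).le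

end Pool.Agent.Y296.QP
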